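import Mathlib

namespace Pool.Agent.Results.MP_e0e877_co.Full
open Classical

variable {V : Type}

/-- Every closed neighbourhood contains all colours `0, ..., k - 1`. -/
def Good (H : SimpleGraph V) (k : ℕ) (f : V → Option ℕ) : Prop :=
  ∀ x, ∀ c < k, ∃ y, (y = x ∨ H.Adj x y) ∧ f y = some c

/-- Alice can force a win from the partial colouring `f`; the flag is `true` when Alice moves. -/
inductive Alice (H : SimpleGraph V) (k : ℕ) : Bool → (V → Option ℕ) → Prop
  | stop {t f} : (∀ v, f v ≠ none) → Good H k f → Alice H k t f
  | own {f} (v : V) (c : ℕ) : f v = none → c < k →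
      Alice H k false (Function.update f v (some c)) → Alice H k true f
  | opp {f} : (∃ v, f v = none) →
      (∀ v c, f v = none → c < k → Alice H k true (Function.update f v (some c))) →
      Alice H k false f

/-- Bob can force a win from the partial colouring `f`; the flag is `true` when Alice moves. -/
inductive Bob (H : SimpleGraph V) (k : ℕ) : Bool → (V → Option ℕ) → Prop
  | stop {t f} : (∀ v, f v ≠ none) → ¬ Good H k f → Bob H k t f
  | own {f} (v : V) (c : ℕ) : f v = none → c < k →
      Bob H k true (Function.update f v (some c)) → Bob H k false f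
  | opp {f} : (∃ v, f v = none) →
      (∀ v c, f v = none → c < k → Bob H k false (Function.update f v (some c))) →
      Bob H k true f

lemma excl {H : SimpleGraph V} {k : ℕ} {t : Bool} {f : V → Option ℕ} (h : Alice H k t f) :
    ¬ Bob H k t f := by
  induction h with
  | stop h1 h2 =>
    intro b
    cases b with
    | stop _ q => exact q h2
    | own v c q => exact h1 v q
    | opp q => exact q.elim h1
  | own v c h1 h2 _ ih =>
    intro b
    cases b with
    | stop q => exact q v h1
    | opp _ q => exact ih (q v c h1 h2)
  | opp h1 _ ih =>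
    intro b
    cases b with
    | stop q => exact h1.elim q
    | own v c q1 q2 q3 => exact ih v c q1 q2 q3

lemma upd (k : ℕ) (f : V → Option ℕ) (v : V) (c : ℕ) :
    (fun w => (Function.update f v (some c) w).map (· % k)) =
      Function.update (fun w => (f w).map (· % k)) v (some (c % k)) := by
  ext1 w
  by_cases e : w = v
  · subst e; simp
  · simp [e]

lemma mono {H : SimpleGraph V} {k : ℕ} (hk : 1 ≤ k) {t : Bool} {f : V → Option ℕ}
    (h : Alice H (k + 1) t f) : Alice H k t fun w => (f w).map (· % k) := by
  induction h with
  | stop h1 h2 =>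
    refine .stop (fun v => by simpa using h1 v) fun x c hc => ?_
    obtain ⟨y, hy, e⟩ := h2 x c (by omega)
    exact ⟨y, hy, by simp [e, Nat.mod_eq_of_lt hc]⟩
  | own v c h1 h2 _ ih =>
    rw [upd] at ih
    exact .own v _ (by simp [h1]) (Nat.mod_lt _ hk) ih
  | opp h1 _ ih =>
    refine .opp (h1.imp fun v e => by simp [e]) fun v c e hc => ?_
    have := ih v c (by simpa using e) (by omega)
    rwa [upd, Nat.mod_eq_of_lt hc] at this

theorem result (V : Type) [Finite V] (H : SimpleGraph V) (k : ℕ) (hk : 1 ≤ k) (aliceFirst : Bool)
    (h : Alice H (k + 1) aliceFirst fun _ => none) :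
    (Alice H k aliceFirst fun _ => none) ∧ ¬ Bob H k aliceFirst fun _ => none :=
  ⟨mono hk h, excl (mono hk h)⟩

end Pool.Agent.Results.MP_e0e877_co.Full
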